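import Pool.Agent.Run7.h902.RkDim

/-!
# MP_12d50c_ag: finite rank of higher Chow groups and moduli spaces of configurations of points

`A s i X` stands for `CH_s(X, i) ⊗ ℚ`, where `X` is a scheme of finite type over `R` (`R = ℤ` or `R = 𝔽_p`) and
`CH_s(X, i)` is the `i`-th homology group of the complex of cycles of dimension `s + i` on `X × Δ^i`. If `X` is
integral, then `CH_s(X, i) = CH^r(X, i)`, where `r = dim X - s` (and `0` for `s > dim X`). The hypothesis
`C : Chow R` collects known properties (Bloch, Levine): invariance under isomorphisms, vanishing for the empty
scheme, localization, homotopy invariance, and the splitting for `X × 𝔾_m`.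

`FrameModuli R B`: `Spec B` is a moduli space over `R` of configurations of points in the projective plane:
the points `(1:0:0)`, `(0:1:0)`, `(0:0:1)`, `(1:1:1)` and finitely many points moving in given Schubert cells
`(1:x:y)`, `(0:1:y)`, `(0:0:1)`, such that every triple of points is prescribed to be collinear
or not collinear: the realization space over `R` of a matroid of rank `3` modulo `PGL_3`.

Theorem.

* For all `s`, `i`, `d`: the rank of `CH_s(X, i)` is finite for all schemes `X` of finite type over `R` of
  dimension at most `d` if and only if it is finite for the integral realization spaces of dimension at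
  most `d`.
* Let `D` be a set of pairs `(s, i)` which is cofinal in `ℤ × ℕ`. All the groups `CH_s(X, i)` of all `X` have
  finite rank if and only if this holds for the integral realization spaces and `(s, i) ∈ D`.

Proof. Every integral scheme of finite type over `R` has a dense open subscheme which is ISOMORPHIC to such
a realization space (an exact form of the universality theorem of Mnev, proved in `CuRing`, `CuGad`,
`CuMain`, `CxMain`).
-/

set_option autoImplicit false

open CategoryTheory AlgebraicGeometry Pool.Agent.Y116.UV Pool.Agent.Run7.h902

namespace Pool.Agent.Results.MP_12d50c_ag.ConfigurationsByDimension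

/-- **Theorem.** Let `R` be a Noetherian ring all elements of which are quotients of integers (for example
`ℤ` or `𝔽_p`). (1) For all `s`, `i`, `d`: `CH_s(X, i)` has finite rank for all schemes `X` of finite type over `R`
with `dim X ≤ d` iff this holds for the integral realization spaces of dimension at most `d`. (2) If `D` is a
cofinal set of pairs, then `CH_s(X, i)` has finite rank for all `s`, `i` and all `X` iff this holds for
`(s, i) ∈ D` and the integral realization spaces. -/
theorem result {R : Type} [CommRing R] [IsNoetherianRing R] (hR : Cu.IntFrac R) (C : Rk.Chow R) :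
    (∀ (s : ℤ) (i d : ℕ),
      (∀ X : Sch R, FT False X → topologicalKrullDim X.left ≤ d → C.Fin s i X) ↔
      ∀ (B : Type) [CommRing B] [Algebra R B] [Algebra.FiniteType R B], IsDomain B →
        Cx.FrameModuli R B → ringKrullDim B ≤ d → C.Fin s i (aff R B)) ∧
    ∀ D : Set (ℤ × ℕ), (∀ (s : ℤ) (i : ℕ), ∃ p ∈ D, s ≤ p.1 ∧ i ≤ p.2) →
      ((∀ (s : ℤ) (i : ℕ) (X : Sch R), FT False X → C.Fin s i X) ↔
      ∀ p ∈ D, ∀ (B : Type) [CommRing B] [Algebra R B] [Algebra.FiniteType R B], IsDomain B →
        Cx.FrameModuli R B → C.Fin p.1 p.2 (aff R B)) :=
  ⟨fun s i d => Rk.rank_dim C hR s i d, fun D hD => Rk.rank_all C hR D hD⟩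

end Pool.Agent.Results.MP_12d50c_ag.ConfigurationsByDimension
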