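import Pool.Agent.Run7.h384.BU.FMain

/-!
# MP_12d50c_ag: finite rank of higher Chow groups, blow-ups of projective spaces suffice

`C.A m k X` stands for `CH_m(X, k) ⊗ ℚ` (cycles of dimension `m + k` on `X × Δ^k`, where `m` may be
negative), for integral `X` of dimension `d` this is `CH^(d - m)(X, k) ⊗ ℚ`; `C.FD m k X` says that it is
finite-dimensional. `RegProj X`: regular, connected, projective over `ℤ` (flat or of positive
characteristic, of arbitrary dimension). `BlowUp X Y B b`: `B` is the blow-up of `X` in the regular centre `Y` of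
codimension `b + 1 ≥ 2`.

Known facts (`C.KnownFD`): projective spaces over `ℤ` are regular, their groups are finite-dimensional
(Quillen, Borel); no cycles of negative codimension; regularity of blow-ups and the blow-up formula
`CH_m(B, k) = CH_m(X, k) ⊕ ⨁_{1 ≤ j ≤ b} CH_(m-j)(Y, k)`; the reduction of schemes of finite type over `ℤ` to
regular projective ones (localization, de Jong's alterations), which is only used in part (5).

Theorem. For fixed `k` in (1)-(4):
1. `FD` in degree `m` for the blow-up `B` iff `FD` in degree `m` for `X` and in the degrees `m - 1, …, m - b` for `Y`.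
2. `FD` in degree `m` for all blow-ups of projective spaces over `ℤ` is equivalent to `FD` in degree `m - 1`
   for ALL regular projective schemes, and to `FD` in all degrees `l < m` for them.
3. `B` the blow-up of `P^(2n-1)` in `Y`, `n > e = dim Y`: `CH^n(B, k)` is finite-dimensional iff
   `CH^r(Y, k)` is for all `r < n`.
4. For every infinite set `T`: all `CH^r(X, k)`, `X` regular projective, are finite-dimensional iff the groups
   `CH^n(B, k)`, `n ∈ T`, are, for the blow-ups `B` of `P^(2n-1)` (dimension `2n`, middle codimension `n`).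
5. For every infinite set `T`: the groups of all schemes of finite type over `ℤ` are finite-dimensional
   iff the groups `CH^n(B, k)` in (4) are, for all `k`.
-/

set_option autoImplicit false

open CategoryTheory AlgebraicGeometry Pool.Agent.Run7.h384.BU

namespace Pool.Agent.Results.MP_12d50c_ag.RationalSchemesSuffice

/-- **Theorem.** (1) Blow-ups. (2) Degree `m` for the blow-ups of projective spaces over the integers
is equivalent to degree `m - 1` for all regular projective schemes, and to all degrees `l < m`. (3) One
scheme `Y`: all codimensions `r < n` are equivalent to the middle codimension `n` for the blow-up of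
`P^(2n-1)`. (4), (5) All regular projective schemes, all schemes of finite type: it is enough to
consider the middle codimension for these blow-ups. -/
theorem result (C : Chow) (hC : C.KnownFD) :
    (∀ (X Y B : Scheme.{0}) (b : ℕ), BlowUp X Y B b → ∀ m k : ℤ,
      C.FD m k B ↔ C.FD m k X ∧ ∀ j : Fin b, C.FD (m - ((j : ℕ) + 1)) k Y) ∧
    (∀ m k : ℤ,
      [(∀ (N b : ℕ) (Y B : Scheme.{0}), BlowUp (PS N) Y B b → C.FD m k B),
        (∀ Y : Scheme.{0}, RegProj Y → C.FD (m - 1) k Y),
        (∀ Y : Scheme.{0}, RegProj Y → ∀ l < m, C.FD l k Y)].TFAE) ∧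
    (∀ (Y B : Scheme.{0}) (n b e : ℕ) (k : ℤ), topologicalKrullDim Y = ((e : ℕ) : WithBot ℕ∞) →
      e < n → BlowUp (PS (2 * n - 1)) Y B b →
        (C.FD n k B ↔ ∀ r : ℕ, r < n → C.FD ((e : ℤ) - r) k Y)) ∧
    (∀ T : Set ℕ, T.Infinite → ∀ k : ℤ,
      ((∀ X : Scheme.{0}, RegProj X → ∀ m : ℤ, C.FD m k X) ↔
        ∀ n ∈ T, ∀ (Y B : Scheme.{0}) (b : ℕ), BlowUp (PS (2 * n - 1)) Y B b → C.FD n k B)) ∧
    (∀ T : Set ℕ, T.Infinite →
      ((∀ X : Scheme.{0}, FinType X → ∀ m k : ℤ, C.FD m k X) ↔
        ∀ n ∈ T, ∀ (Y B : Scheme.{0}) (b : ℕ), BlowUp (PS (2 * n - 1)) Y B b →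
          ∀ k : ℤ, C.FD n k B)) :=
  ⟨fun _ _ _ _ h m k => fd_blowUp hC h m k, fun m k => fd_tfae hC m k,
    fun _ _ _ _ _ k he hn h => fd_middle hC k he hn h, fun T hT k => fd_all hC T hT k,
    fun T hT => fd_finType hC T hT⟩

end Pool.Agent.Results.MP_12d50c_ag.RationalSchemesSuffice
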